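import Pool.Agent.helper5.IH.Spec

set_option autoImplicit false

namespace Pool.Agent.IH
open Finset CT SYM

theorem N1H_sym {X : Type} [Fintype X] [DecidableEq X] (D : X → X → ℤ) (h0 : ∀ x, D x x = 0)
    (hs : ∀ x y, D x y = D y x) (h2 : ∀ x y, (2 : ℤ) ∣ D x y) : (4 : ℤ) ∣ ∑ x, ∑ y, D x y := by
  choose E hE using h2
  have h1 : ∑ x, ∑ y, D x y = 2 * ∑ x, ∑ y, E x y := by
    rw [Finset.mul_sum]
    apply Finset.sum_congr rfl
    intro x _
    rw [Finset.mul_sum]
    exact Finset.sum_congr rfl fun y _ => hE x y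
  have hE0 : ∀ x, E x x = 0 := fun x => by
    have := hE x x
    rw [h0] at this
    omega
  have hEs : ∀ x y, E x y = E y x := fun x y => by
    have a := hE x y
    have b := hE y x
    have c := hs x y
    omega
  have h3 : ((∑ x, ∑ y, E x y : ℤ) : ZMod 2) = 0 := by
    rw [← Finset.sum_product', Int.cast_sum]
    apply Finset.sum_involution (fun p _ => (p.2, p.1))
    · intro p _
      have : E p.2 p.1 = E p.1 p.2 := hEs _ _
      simp only [this]
      exact CharTwo.add_self_eq_zero _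
    · intro p _ hp hpp
      apply hp
      have h4 : p.2 = p.1 := (Prod.ext_iff.1 hpp).1
      rw [h4, hE0]
      simp
    · intro p _
      exact Finset.mem_product.2 ⟨Finset.mem_univ _, Finset.mem_univ _⟩
    · intro p _
      rfl
  have h4 : (2 : ℤ) ∣ ∑ x, ∑ y, E x y := by
    have := (ZMod.intCast_zmod_eq_zero_iff_dvd (∑ x, ∑ y, E x y) 2).1 h3
    exact_mod_cast this
  rw [h1]
  obtain ⟨k, hk⟩ := h4
  rw [hk]
  exact ⟨k, by ring⟩

theorem N1H_ite {T : Type} (p : Prop) [Decidable p] (Q : T → Prop) :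
    Nat.card {t // p ∧ Q t} = if p then Nat.card {t // Q t} else 0 := by
  by_cases hp : p
  · simp [hp]
  · rw [if_neg hp]
    have : IsEmpty {t // p ∧ Q t} := ⟨fun t => hp t.2.1⟩
    exact Nat.card_of_isEmpty

theorem N1H_congr {T : Type} {P Q : T → Prop} (h : ∀ t, P t ↔ Q t) :
    Nat.card {t // P t} = Nat.card {t // Q t} :=
  Nat.card_congr (Equiv.subtypeEquivRight h)

theorem N1H (hNSD : NSD_stmt) (hALR : ALR_stmt) (hGXC : GXC_stmt) (hOD4 : OD4_stmt) (hNS24 : NS24_stmt)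
    (hBHP : BHP_stmt) (hHPS : HPS_stmt) (hHPC : HPC_stmt) : N1H_stmt := by
  classical
  intro V _ _ H hV
  obtain ⟨v⟩ : Nonempty V := Fintype.card_pos_iff.1 (by omega)
  have e1 := hNSD V H ∅ v (by simp)
  have e2 : 4 ∣ nS H (insert v ∅) := (hNS24 V H (insert v ∅)).2 (by simp; omega)
  -- al as a count
  have e3 : al H ∅ v = Nat.card {t : V → Fin 3 // (t v = 0 ∧ Even (mu H t)) ∧
      Odd (Nat.card {x // H.Adj v x ∧ Gx H t x})} := by
    unfold al
    apply N1H_congr
    intro t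
    constructor
    · rintro ⟨h1, h2, h3⟩
      have hv : t v = 0 := h1 v (by simp)
      exact ⟨⟨hv, h2⟩, (hALR V H t v hv).1 h3⟩
    · rintro ⟨⟨h1, h2⟩, h3⟩
      refine ⟨?_, h2, (hALR V H t v h1).2 h3⟩
      intro w hw
      have : w = v := by simpa using hw
      rw [this]; exact h1
  have e4 := hOD4 (V → Fin 3) V (fun t => t v = 0 ∧ Even (mu H t)) (fun t x => H.Adj v x ∧ Gx H t x)
  rw [← e3] at e4
  -- single sums
  have e5 : ∀ x : V, (4 : ℤ) ∣ (Nat.card {t : V → Fin 3 // (t v = 0 ∧ Even (mu H t)) ∧ H.Adj v x ∧ Gx H t x} : ℤ) := by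
    intro x
    have h1 : Nat.card {t : V → Fin 3 // (t v = 0 ∧ Even (mu H t)) ∧ H.Adj v x ∧ Gx H t x} =
        if H.Adj v x then Nat.card {t : V → Fin 3 // (∀ w ∈ ({v} : Finset V), t w = 0) ∧ Even (mu H t) ∧ Gx H t x} else 0 := by
      rw [← N1H_ite]
      apply N1H_congr
      intro t
      simp only [Finset.mem_singleton, forall_eq]
      tauto
    rw [h1]
    by_cases hx : H.Adj v x
    · rw [if_pos hx, hGXC V H {v} x, if_neg (by simpa using hx.ne.symm)]
      have h2 : 4 ∣ nS H (insert x {v}) := (hNS24 V H (insert x {v})).2 (by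
        have := Finset.card_insert_le x ({v} : Finset V)
        simp at this
        omega)
      exact_mod_cast h2
    · rw [if_neg hx]; simp
  have e6 : (4 : ℤ) ∣ ∑ x, (Nat.card {t : V → Fin 3 // (t v = 0 ∧ Even (mu H t)) ∧ H.Adj v x ∧ Gx H t x} : ℤ) :=
    Finset.dvd_sum fun x _ => e5 x
  -- double sums
  obtain ⟨F, hF⟩ : ∃ F : V → V → ℤ, ∀ x y, F x y = if H.Adj v x ∧ H.Adj v y ∧ x ≠ y then (Bc H v x y : ℤ) else 0 :=
    ⟨fun x y => if H.Adj v x ∧ H.Adj v y ∧ x ≠ y then (Bc H v x y : ℤ) else 0, fun x y => rfl⟩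
  have e7 : ∀ (x y : V) (inst : Decidable (x = y)), (@ite ℤ (x = y) inst (0 : ℤ) (Nat.card {t : V → Fin 3 // (t v = 0 ∧ Even (mu H t)) ∧
      (H.Adj v x ∧ Gx H t x) ∧ (H.Adj v y ∧ Gx H t y)} : ℤ)) =
      F x y := by
    intro x y inst
    rw [hF]
    by_cases hxy : x = y
    · simp [hxy]
    · rw [if_neg hxy]
      have h1 : Nat.card {t : V → Fin 3 // (t v = 0 ∧ Even (mu H t)) ∧
          (H.Adj v x ∧ Gx H t x) ∧ (H.Adj v y ∧ Gx H t y)} =
          if H.Adj v x ∧ H.Adj v y ∧ x ≠ y then Bc H v x y else 0 := by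
        unfold Bc
        rw [← N1H_ite]
        apply N1H_congr
        intro t
        tauto
      rw [h1]
      by_cases h : H.Adj v x ∧ H.Adj v y ∧ x ≠ y
      · simp only [if_pos h]
      · simp only [if_neg h, Nat.cast_zero]
  simp only [e7] at e4
  -- Hc
  have e9 := hHPC V H v (by omega)
  have e10 : (Hc H : ℤ) = ∑ x, ∑ y, if H.Adj v x ∧ H.Adj v y ∧ x ≠ y then (Hp H v x y : ℤ) else 0 := by
    rw [e9]
    push_cast
    rfl
  have e11 : (4 : ℤ) ∣ ∑ x, ∑ y, (if H.Adj v x ∧ H.Adj v y ∧ x ≠ y then (Hp H v x y : ℤ) - Bc H v x y else 0) := by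
    apply N1H_sym
    · intro x; simp
    · intro x y
      by_cases h : H.Adj v x ∧ H.Adj v y ∧ x ≠ y
      · rw [if_pos h, if_pos ⟨h.2.1, h.1, h.2.2.symm⟩, hHPS V H v x y h.1.ne.symm h.2.1.ne.symm]
        have : Bc H v x y = Bc H v y x := by
          unfold Bc
          apply N1H_congr
          intro t
          tauto
        rw [this]
      · rw [if_neg h, if_neg (fun h' => h ⟨h'.2.1, h'.1, h'.2.2.symm⟩)]
    · intro x y
      by_cases h : H.Adj v x ∧ H.Adj v y ∧ x ≠ y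
      · rw [if_pos h]
        have h1 := hBHP V H v x y h.2.2 h.1.ne.symm h.2.1.ne.symm
        have h2 : (((Hp H v x y : ℤ) - Bc H v x y : ℤ) : ZMod 2) = 0 := by
          push_cast
          rw [h1, sub_self]
        exact_mod_cast (ZMod.intCast_zmod_eq_zero_iff_dvd _ 2).1 h2
      · rw [if_neg h]; simp
  have e12 : ∑ x, ∑ y, (if H.Adj v x ∧ H.Adj v y ∧ x ≠ y then (Hp H v x y : ℤ) - Bc H v x y else 0) =
      (Hc H : ℤ) - ∑ x, ∑ y, F x y := by
    rw [e10, ← Finset.sum_sub_distrib]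
    apply Finset.sum_congr rfl
    intro x _
    rw [← Finset.sum_sub_distrib]
    apply Finset.sum_congr rfl
    intro y _
    rw [hF]
    by_cases h : H.Adj v x ∧ H.Adj v y ∧ x ≠ y
    · simp only [if_pos h]
    · simp only [if_neg h, sub_zero]
  rw [e12] at e11
  omega

end Pool.Agent.IH
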